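import Pool.Agent.TH990.FU.FixE
import Pool.Agent.W424.KI.Fin
import Pool.Agent.Results.MP_fe58d8_pr.NaturalCurve
import Pool.Agent.Results.MP_fe58d8_pr.UniformDimension

/-!
# Double points and boundary points of the interface in fixed sets

The critical random-cluster interface for `q = 1` (bond percolation with `p = 1/2`) on `δ ℤ²` in a
rectangle `D = (-A, B) × (0, H)`, with the counterclockwise boundary arc from `a = t + i H` to
`b = 0` wired and the other one dual-wired (free). The interface is parametrised by its number of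
steps: `Rect.curve` is the piecewise linear curve on `[0, 1]` run at constant speed, and `Rect.time`
is the number of steps times `δ ^ (7/4)`; `Rect.law` is the law of (curve, time). Weak limits exist
along a subsequence of every sequence of meshes.

For every weak limit and every fixed set `T` (no measurability is assumed), almost surely:
* the double points of the curve in `T ∩ D` form a set of dimension at most `dimH T - 5/4`, and there
  are none if the `5/4`-dimensional Hausdorff measure of `T` is zero;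
* the points of `T ∩ D` on the boundary of a component of the complement of the range of the curve
  form a set of dimension at most `dimH T - 2/3`, and there are none if the `2/3`-dimensional
  Hausdorff measure of `T` is zero;
* the corresponding sets of times have dimension at most `4/7` of these values.
(Differences in `[0, ∞]` are truncated at `0`.) For instance, almost surely no point of a fixed line
or Lipschitz curve is a double point, and it meets the boundaries of the complementary components in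
a set of dimension at most `1/3`.

Definitions: `Pool.Agent.H984R4.NP.Model` (`Rect`, `pos`, `clamp`, `pl`, `X`, `Rect.D`, `Rect.dm`,
`Rect.curve`, `Rect.time`, `Rect.law`), `Pool.Agent.H984R4.NP.Defs` (`Dm`, `Dm.edges`, `Dm.wir`,
`Dm.cfg`, `Dm.walk`, `Dm.len`) and `Pool.Agent.H984R3.Per.Defs` (states, `ae`, `mv`, `rt`, `nxt`,
`orb`).

Used from the starting files: the sharp three-arm and four-arm bounds in annuli
(`Pool.Agent.W424.KI.Fin`, `Pool.Agent.W347.DPAA`, `Pool.Agent.W571.DPad`), the deterministic part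
for double points (`Pool.Agent.W92.DP.Dich`, `Pool.Agent.W462.DPL`), the uniform dimension theorem.
-/

set_option autoImplicit false

namespace Pool.Agent.Results.MP_216314_pr.SpecialPointsFixedSets

open H984N MeasureTheory Filter Topology
open scoped ENNReal NNReal

/-- The points which a curve visits at least twice. -/
def doublePoints (f : C(unitInterval, ℂ)) : Set ℂ :=
  {z | ∃ s t : unitInterval, s < t ∧ f s = z ∧ f t = z}

/-- The union of the boundaries of all connected components of the complement of `K`. -/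
def sides (K : Set ℂ) : Set ℂ := ⋃ x : ℂ, frontier (connectedComponentIn Kᶜ x)

/-- The times at which `f` is in `S`. -/
def times (f : C(unitInterval, ℂ)) (S : Set ℂ) : Set unitInterval := {s | f s ∈ S}

theorem ofR (a b : ℝ) (hb : 0 < b) : ENNReal.ofReal (a / b) = ENNReal.ofReal a / ENNReal.ofReal b :=
  ENNReal.ofReal_div_of_pos hb

theorem e54 : ENNReal.ofReal (5 / 4) = 5 / 4 := by
  rw [ofR _ _ (by norm_num)]; norm_num

theorem e23 : ENNReal.ofReal (2 / 3) = 2 / 3 := by
  rw [ofR _ _ (by norm_num)]; norm_num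

/-- Every double point of a curve which is not constant on intervals has an excursion. -/
theorem dbl_sub {f : C(unitInterval, ℂ)} (hf : ∀ s t : unitInterval, s < t →
    dimH (f '' Set.Icc s t) = 7 / 4) :
    doublePoints f ⊆ ⋃ n : ℕ, Pool.Agent.W92.DP.DPt (1 / ((n : ℝ) + 1)) f := by
  rintro z ⟨s, t, hst, h1, h2⟩
  have h3 : ∃ u ∈ Set.Icc s t, f u ≠ z := by
    by_contra hcon
    push Not at hcon
    have h4 : f '' Set.Icc s t ⊆ {z} := by
      rintro w ⟨u, hu, rfl⟩
      exact hcon u hu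
    have h5 := dimH_mono h4
    rw [hf s t hst, dimH_singleton] at h5
    exact absurd h5 (not_le.2 (ENNReal.div_pos (by norm_num) (by norm_num)))
  obtain ⟨u, ⟨hu1, hu2⟩, hu⟩ := h3
  obtain ⟨n, hn⟩ := exists_nat_one_div_lt (dist_pos.2 hu)
  exact Set.mem_iUnion.2 ⟨n, s, u, t, hu1, hu2, h1, h2, hn.le⟩

theorem solve {x y : ℝ≥0∞} (h : 7 / 4 * x ≤ y) : x ≤ 4 / 7 * y := by
  have e2 : (4 / 7 : ℝ≥0∞) * (7 / 4) = 1 := by
    have a1 : (4 / 7 : ℝ≥0∞) = ENNReal.ofReal (4 / 7) := by
      rw [ofR _ _ (by norm_num)]; norm_num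
    have a2 : (7 / 4 : ℝ≥0∞) = ENNReal.ofReal (7 / 4) := by
      rw [ofR _ _ (by norm_num)]; norm_num
    rw [a1, a2, ← ENNReal.ofReal_mul (by norm_num)]
    norm_num
  calc x = 4 / 7 * (7 / 4 * x) := by rw [← mul_assoc, e2, one_mul]
    _ ≤ 4 / 7 * y := by gcongr

theorem lip_dim {K : ℝ≥0} {f : ℝ → ℂ} (hf : LipschitzWith K f) : dimH (Set.range f) ≤ 1 := by
  have h := hf.dimH_range_le
  rwa [Real.dimH_univ] at h

theorem lip_null {K : ℝ≥0} {f : ℝ → ℂ} (hf : LipschitzWith K f) : μH[5 / 4] (Set.range f) = 0 := by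
  have h2 : dimH (Set.range f) < ((5 / 4 : ℝ≥0) : ℝ≥0∞) := by
    refine lt_of_le_of_lt (lip_dim hf) ?_
    rw [← ENNReal.coe_one, ENNReal.coe_lt_coe]
    norm_num
  have h3 := hausdorffMeasure_of_dimH_lt h2
  have e : (((5 / 4 : ℝ≥0) : ℝ)) = 5 / 4 := by push_cast; ring
  rwa [e] at h3

theorem e13 : (1 : ℝ≥0∞) - 2 / 3 = 1 / 3 := by
  rw [← e23, ← ENNReal.ofReal_one, ← ENNReal.ofReal_sub _ (by norm_num),
    show (1 : ℝ) - 2 / 3 = 1 / 3 by norm_num, ofR _ _ (by norm_num)]
  norm_num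

theorem result (R : Rect) :
    (∀ δ : ℕ → ℝ, (∀ i, 0 < δ i) → Tendsto δ atTop (𝓝 0) →
      ∃ φ : ℕ → ℕ, StrictMono φ ∧ ∃ μ : ProbabilityMeasure X,
        Tendsto (fun i => R.law (δ (φ i))) atTop (𝓝 μ)) ∧
    (∀ δ : ℕ → ℝ, (∀ i, 0 < δ i) → Tendsto δ atTop (𝓝 0) → ∀ μ : ProbabilityMeasure X,
      Tendsto (fun i => R.law (δ i)) atTop (𝓝 μ) →
      (∀ T : Set ℂ, ∀ᵐ p ∂(μ : Measure X),
        dimH (doublePoints p.1 ∩ T ∩ R.D) ≤ dimH T - 5 / 4 ∧
        dimH (times p.1 (doublePoints p.1 ∩ T ∩ R.D)) ≤ 4 / 7 * (dimH T - 5 / 4) ∧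
        (μH[5 / 4] T = 0 → doublePoints p.1 ∩ T ∩ R.D = ∅) ∧
        dimH (sides (Set.range p.1) ∩ T ∩ R.D) ≤ dimH T - 2 / 3 ∧
        dimH (times p.1 (sides (Set.range p.1) ∩ T ∩ R.D)) ≤ 4 / 7 * (dimH T - 2 / 3) ∧
        (μH[2 / 3] T = 0 → sides (Set.range p.1) ∩ T ∩ R.D = ∅)) ∧
      (∀ (K : ℝ≥0) (f : ℝ → ℂ), LipschitzWith K f → ∀ᵐ p ∂(μ : Measure X),
        doublePoints p.1 ∩ Set.range f ∩ R.D = ∅ ∧
        dimH (sides (Set.range p.1) ∩ Set.range f ∩ R.D) ≤ 1 / 3)) := by
  obtain ⟨h1, h2⟩ := Pool.Agent.Results.MP_fe58d8_pr.UniformDimension.result R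
  refine ⟨h1, fun δ hδ hlim μ hμ => ?_⟩
  have key : ∀ T : Set ℂ, ∀ᵐ p ∂(μ : Measure X),
        dimH (doublePoints p.1 ∩ T ∩ R.D) ≤ dimH T - 5 / 4 ∧
        dimH (times p.1 (doublePoints p.1 ∩ T ∩ R.D)) ≤ 4 / 7 * (dimH T - 5 / 4) ∧
        (μH[5 / 4] T = 0 → doublePoints p.1 ∩ T ∩ R.D = ∅) ∧
        dimH (sides (Set.range p.1) ∩ T ∩ R.D) ≤ dimH T - 2 / 3 ∧
        dimH (times p.1 (sides (Set.range p.1) ∩ T ∩ R.D)) ≤ 4 / 7 * (dimH T - 2 / 3) ∧
        (μH[2 / 3] T = 0 → sides (Set.range p.1) ∩ T ∩ R.D = ∅) := by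
    intro T
    filter_upwards [h2 δ hδ hlim μ hμ,
      (Pool.Agent.Results.MP_fe58d8_pr.NaturalCurve.result R).2.2.2 δ hδ hlim μ hμ,
      Pool.Agent.TH990.FU.dpF R hδ hlim hμ T,
      Pool.Agent.TH990.FU.acF Pool.Agent.W424.KI.u3 R hδ hlim hμ T] with p hp hq hd ha
    obtain ⟨-, -, -, hcl, hdim, -⟩ := hq
    rw [e54] at hd
    rw [e23] at ha
    have hne : ∃ s t, p.1 s ≠ p.1 t := by
      by_contra hcon
      push Not at hcon
      have h3 := hdim 0 1 zero_lt_one
      have h4 : p.1 '' Set.Icc 0 1 ⊆ {p.1 0} := by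
        rintro _ ⟨s, -, rfl⟩
        exact hcon s 0
      have h5 := dimH_mono h4
      rw [h3, dimH_singleton] at h5
      exact absurd h5 (not_le.2 (ENNReal.div_pos (by norm_num) (by norm_num)))
    have hs1 : doublePoints p.1 ∩ T ∩ R.D ⊆
        (⋃ i : ℕ, Pool.Agent.W92.DP.DPt (1 / ((i:ℝ) + 1)) p.1) ∩ T ∩ R.D :=
      Set.inter_subset_inter_left _ (Set.inter_subset_inter_left _ (dbl_sub hdim))
    have hs2 : sides (Set.range p.1) ∩ T ∩ R.D ⊆
        (⋃ i : ℕ, Pool.Agent.TH990.FU.Acc (1 / ((i:ℝ) + 1)) p.1) ∩ T ∩ R.D :=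
      Set.inter_subset_inter_left _ (Set.inter_subset_inter_left _
        (Pool.Agent.TH990.FU.frontiers_acc hne))
    have hd1 : dimH (doublePoints p.1 ∩ T ∩ R.D) ≤ dimH T - 5 / 4 := (dimH_mono hs1).trans hd.1
    have ha1 : dimH (sides (Set.range p.1) ∩ T ∩ R.D) ≤ dimH T - 2 / 3 :=
      (dimH_mono hs2).trans ha.1
    have htime : ∀ S : Set ℂ, 7 / 4 * dimH (times p.1 S) ≤ dimH S := by
      intro S
      rw [← hp (times p.1 S)]
      apply dimH_mono
      rintro _ ⟨s, hs, rfl⟩
      exact hs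
    exact ⟨hd1, solve ((htime _).trans hd1), fun hT => Set.subset_empty_iff.1
      (hs1.trans (hd.2 hT).le), ha1, solve ((htime _).trans ha1),
      fun hT => Set.subset_empty_iff.1 (hs2.trans (ha.2 hT).le)⟩
  refine ⟨key, fun K f hf => ?_⟩
  filter_upwards [key (Set.range f)] with p hp
  obtain ⟨-, -, q1, q2, -, -⟩ := hp
  refine ⟨q1 (lip_null hf), q2.trans ?_⟩
  rw [← e13]
  exact tsub_le_tsub_right (lip_dim hf) _

end Pool.Agent.Results.MP_216314_pr.SpecialPointsFixedSets
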