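import Pool.Agent.TH966.GB.TouchLim

/-!
# Hitting probabilities of fixed subsets of the free boundary arc

The critical random-cluster model with `q = 1` (bond percolation with `p = 1/2`) on `δ ℤ²` in a
rectangle `D = (-A, B) × (0, H)` with Dobrushin boundary conditions: the counterclockwise boundary
arc from `a = t + i H` to `b = 0` is wired, the other one is free. The part `(0, B)` of the lower
side belongs to the free arc.

For every compact subset `K` of `(0, B)` there are positive constants `c`, `C` such that for every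
weak limit `μ`, as `δ → 0`, of the law of the trace of the interface (they exist along a subsequence
of every sequence of meshes) and every compact subset `S` of `K`, the probability under `μ` that the
trace meets `S` is

* at least `c` divided by the energy of order `1/3` of any probability measure on `S`, hence at
  least `c` times the capacity of order `1/3` of `S`;
* at most `C` times the sum of the cube roots of the diameters of the sets of any covering of `S`,
  hence at most `C` times the Hausdorff content of dimension `1/3` of `S`.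

Definitions (in `Pool.Agent.H934R2.Expl.Model`): `Rect` (the domain), `Rect.D`, `pt`, `Rect.verts`,
`Rect.edges` (the discrete domain), `Rect.wired`, `Rect.outer` (boundary condition), `Rect.clu`,
`Rect.dclu` (the two clusters), `Rect.path` (trace of the interface), `Rect.law` (its law, all
configurations of the edges being equally likely).
-/

set_option autoImplicit false

namespace Pool.Agent.Results.MP_216314_pr.TouchingCapacity

open MeasureTheory TopologicalSpace Filter Topology H934E
open Pool.Agent.TH966
open scoped ENNReal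

theorem result (R : Rect) :
    (∀ (δ : ℕ → ℝ) (hδ : ∀ i, 0 < δ i), Tendsto δ atTop (𝓝 0) →
      ∃ φ : ℕ → ℕ, StrictMono φ ∧ ∃ μ : ProbabilityMeasure (NonemptyCompacts ℂ),
        Tendsto (fun i => R.law (hδ (φ i))) atTop (𝓝 μ)) ∧
    (∀ K : Set ℂ, IsCompact K → K ⊆ {z | z.im = 0 ∧ 0 < z.re ∧ z.re < R.B} →
      ∃ c C : ℝ, 0 < c ∧ 0 < C ∧
      ∀ (δ : ℕ → ℝ) (hδ : ∀ i, 0 < δ i), Tendsto δ atTop (𝓝 0) →
      ∀ μ : ProbabilityMeasure (NonemptyCompacts ℂ),
        Tendsto (fun i => R.law (hδ i)) atTop (𝓝 μ) →
        ∀ S : Set ℂ, IsCompact S → S ⊆ K →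
          (∀ ν : Measure ℂ, IsProbabilityMeasure ν → ν Sᶜ = 0 →
            ENNReal.ofReal c / (∫⁻ x, ∫⁻ y, (edist x y) ^ (-(1 / 3) : ℝ) ∂ν ∂ν) ≤
              (μ : Measure (NonemptyCompacts ℂ)) {L | ((L : Set ℂ) ∩ S).Nonempty}) ∧
          (∀ T : ℕ → Set ℂ, S ⊆ ⋃ n, T n →
            (μ : Measure (NonemptyCompacts ℂ)) {L | ((L : Set ℂ) ∩ S).Nonempty} ≤
              ENNReal.ofReal C * ∑' n, (Metric.ediam (T n)) ^ ((1 : ℝ) / 3))) := by
  refine ⟨fun δ hδ hlim => R.exists_limit hδ hlim, ?_⟩
  intro K hK hKD
  obtain ⟨c, C, r0, hc, hC, hr0, hb⟩ := GB.touch_bds R hK hKD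
  refine ⟨c ^ 2 / (8 * (C * 3 ^ ((1 : ℝ) / 3))), max C (r0 ^ (-((1 : ℝ) / 3))), by positivity,
    lt_max_of_lt_left hC, ?_⟩
  intro δ hδ hlim μ hμ S hS hSK
  have hbd := hb δ hδ hlim μ hμ
  refine ⟨fun ν hν hν0 => ?_, fun T hT => ?_⟩
  · exact GB.cap_gen (μ := (μ : Measure (NonemptyCompacts ℂ)))
      (K := fun K : NonemptyCompacts ℂ => (K : Set ℂ)) (fun K => K.isCompact) GB.hit_meas
      (by norm_num) hc hC hr0 hbd hS hSK hν0
  · exact GB.content_gen (μ := (μ : Measure (NonemptyCompacts ℂ)))
      (K := fun K : NonemptyCompacts ℂ => (K : Set ℂ)) (by norm_num) hC hr0 hbd hSK T hT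

end Pool.Agent.Results.MP_216314_pr.TouchingCapacity
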