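import Pool.Agent.TH966.GB.TouchLim

/-!
# The interface and fixed subsets of the free boundary arc

The critical random-cluster model with `q = 1` (bond percolation with `p = 1/2`) on `δ ℤ²` in a
rectangle `D = (-A, B) × (0, H)` with Dobrushin boundary conditions: the counterclockwise boundary
arc from `a = t + i H` to `b = 0` is wired, the other one is free. The part `(0, B)` of the lower
side belongs to the free arc.

For every weak limit `μ`, as `δ → 0`, of the law of the trace of the interface (they exist along a
subsequence of every sequence of meshes) and every fixed sigma-compact subset `S` of `(0, B)`, the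
essential supremum of the Hausdorff dimension of the part of the trace in `S` is `dim S - 1/3`
(difference in `[0, ∞]`, truncated at `0`). So the trace hits `S` with positive probability in a set
of dimension arbitrarily close to `dim S - 1/3`, if `dim S > 1/3`, and almost surely never in a set
of larger dimension.

Definitions (in `Pool.Agent.H934R2.Expl.Model`): `Rect` (the domain), `Rect.D`, `pt`, `Rect.verts`,
`Rect.edges` (the discrete domain), `Rect.wired`, `Rect.outer` (boundary condition), `Rect.clu`,
`Rect.dclu` (the two clusters), `Rect.path` (trace of the interface), `Rect.law` (its law, all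
configurations of the edges being equally likely).
-/

set_option autoImplicit false

namespace Pool.Agent.Results.MP_216314_pr.TouchingFixedSets

open MeasureTheory TopologicalSpace Filter Topology H934E
open Pool.Agent.TH966
open scoped ENNReal

theorem result (R : Rect) :
    (∀ (δ : ℕ → ℝ) (hδ : ∀ i, 0 < δ i), Tendsto δ atTop (𝓝 0) →
      ∃ φ : ℕ → ℕ, StrictMono φ ∧ ∃ μ : ProbabilityMeasure (NonemptyCompacts ℂ),
        Tendsto (fun i => R.law (hδ (φ i))) atTop (𝓝 μ)) ∧
    (∀ (δ : ℕ → ℝ) (hδ : ∀ i, 0 < δ i), Tendsto δ atTop (𝓝 0) →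
      ∀ μ : ProbabilityMeasure (NonemptyCompacts ℂ),
        Tendsto (fun i => R.law (hδ i)) atTop (𝓝 μ) →
        ∀ S : Set ℂ, S ⊆ {z | z.im = 0 ∧ 0 < z.re ∧ z.re < R.B} → IsSigmaCompact S →
          essSup (fun K : NonemptyCompacts ℂ => dimH ((K : Set ℂ) ∩ S))
            (μ : Measure (NonemptyCompacts ℂ)) = dimH S - 1 / 3) := by
  refine ⟨fun δ hδ hlim => R.exists_limit hδ hlim, ?_⟩
  intro δ hδ hlim μ hμ S hSl hS
  have h := GB.ess_gen (μ := (μ : Measure (NonemptyCompacts ℂ)))
    (K := fun K : NonemptyCompacts ℂ => (K : Set ℂ)) (fun K => K.isCompact) GB.hit_meas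
    (α := 1 / 3) (by norm_num) hS (fun A hA hAc => by
      obtain ⟨c, C, r0, hc, hC, hr0, hb⟩ := GB.touch_bds R hAc (hA.trans hSl)
      exact ⟨c, C, r0, hc, hC, hr0, hb δ hδ hlim μ hμ⟩)
  rw [h]
  congr 1
  rw [ENNReal.ofReal_div_of_pos (by norm_num)]
  norm_num

end Pool.Agent.Results.MP_216314_pr.TouchingFixedSets
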