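import Pool.Agent.TH966.GB.WirLim
import Pool.Agent.H160R2.SA.Arm

/-!
# The wired boundary cluster and fixed sets

The critical random-cluster model with `q = 1` (bond percolation with `p = 1/2`) on `δ ℤ²` in a
rectangle `D = (-A, B) × (0, H)` with Dobrushin boundary conditions: the counterclockwise boundary
arc from `a = t + i H` to `b = 0` is wired, the other one is free. The interface separates the
cluster of the wired arc from the dual cluster of the free arc.

For every weak limit `μ`, as `δ → 0`, of the law of the cluster of the wired arc (they exist along a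
subsequence of every sequence of meshes) and every fixed sigma-compact set `S` in `D`, the essential
supremum of the Hausdorff dimension of the part of the cluster in `S` is `dim S - 5/48` (difference
in `[0, ∞]`, truncated at `0`).

Definitions: in `Pool.Agent.H934R2.Expl.Model`: `Rect` (the domain), `Rect.D`, `pt`, `Rect.verts`,
`Rect.edges` (the discrete domain), `Rect.wired` (the edges along the wired arc), `Rect.clu` (the
vertices of its cluster); in `Pool.Agent.H389R2.CD.Hit`: `cset`, `clus` (this cluster as a compact
subset of the plane: its vertices and its edges), `clusLaw` (its law, all configurations of the edges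
being equally likely).
-/

set_option autoImplicit false

namespace Pool.Agent.Results.MP_216314_pr.WiredClusterFixedSets

open MeasureTheory TopologicalSpace Filter Topology H934E
open Pool.Agent.H389R2.CD Pool.Agent.TH966
open scoped ENNReal

theorem result (R : Rect) :
    (∀ δ : ℕ → ℝ, (∀ i, 0 < δ i) → Tendsto δ atTop (𝓝 0) →
      ∃ φ : ℕ → ℕ, StrictMono φ ∧ ∃ μ : ProbabilityMeasure (NonemptyCompacts ℂ),
        Tendsto (fun i => clusLaw R (δ (φ i))) atTop (𝓝 μ)) ∧
    (∀ δ : ℕ → ℝ, (∀ i, 0 < δ i) → Tendsto δ atTop (𝓝 0) →
      ∀ μ : ProbabilityMeasure (NonemptyCompacts ℂ),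
        Tendsto (fun i => clusLaw R (δ i)) atTop (𝓝 μ) →
        ∀ S : Set ℂ, S ⊆ R.D → IsSigmaCompact S →
          essSup (fun K : NonemptyCompacts ℂ => dimH ((K : Set ℂ) ∩ S))
            (μ : Measure (NonemptyCompacts ℂ)) = dimH S - 5 / 48) := by
  have hAr : ArS := Pool.Agent.H160R2.SA.arSharp
  refine ⟨fun δ hδ hlim => clus_precompact R hδ hlim, ?_⟩
  intro δ hδ hlim μ hμ S hSD hS
  have h := GB.ess_gen (μ := (μ : Measure (NonemptyCompacts ℂ)))
    (K := fun K : NonemptyCompacts ℂ => (K : Set ℂ)) (fun K => K.isCompact) GB.hit_meas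
    (α := 5 / 48) (by norm_num) hS (fun A hA hAc => by
      obtain ⟨c, C, r0, hc, hC, hr0, hb⟩ := GB.wired_bds hAr R hAc (hA.trans hSD)
      exact ⟨c, C, r0, hc, hC, hr0, hb δ hδ hlim μ hμ⟩)
  rw [h]
  congr 1
  rw [ENNReal.ofReal_div_of_pos (by norm_num)]
  norm_num

end Pool.Agent.Results.MP_216314_pr.WiredClusterFixedSets
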